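import Mathlib

/-!
# A positive functional on real polynomials in two variables

A linear functional on `ℝ[x, y]` which is nonnegative on all squares and takes the values
`1, 1, 1, 4 ^ 8` on `1, x⁴y², x²y⁴, x²y²`.
-/

set_option autoImplicit false

open MvPolynomial

namespace Pool.Agent.U739.Mp2f

/-- exponents of the moments -/
def phi (i j : ℕ) : ℕ :=
  if (i = 0 ∧ j = 0) ∨ (i = 2 ∧ j = 1) ∨ (i = 1 ∧ j = 2) then 0
  else if i = 1 ∧ j = 1 then 8 else 8 * 4 ^ (i ^ 2 + j ^ 2)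

/-- the exceptional exponents -/
def Exc (i j : ℕ) : Prop :=
  (i = 0 ∧ j = 0) ∨ (i = 2 ∧ j = 1) ∨ (i = 1 ∧ j = 2) ∨ (i = 1 ∧ j = 1)

theorem phi_of_not_exc {i j : ℕ} (h : ¬ Exc i j) : phi i j = 8 * 4 ^ (i ^ 2 + j ^ 2) := by
  unfold Exc at h
  push Not at h
  unfold phi
  rw [if_neg, if_neg]
  · rintro ⟨h1, h2⟩; exact h.2.2.2 h1 h2
  · rintro (⟨h1, h2⟩ | ⟨h1, h2⟩ | ⟨h1, h2⟩)
    · exact h.1 h1 h2
    · exact h.2.1 h1 h2
    · exact h.2.2.1 h1 h2

theorem phi_key {i j i' j' a b : ℕ} (h1 : i + i' = 2 * a) (h2 : j + j' = 2 * b)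
    (hE : ¬ Exc a b) (hq : a ^ 2 + b ^ 2 < i ^ 2 + j ^ 2) :
    2 * phi a b + (2 * a + 2 * b + 4) ≤ phi i j := by
  have hij : ¬ Exc i j := by
    rintro (⟨rfl, rfl⟩ | ⟨rfl, rfl⟩ | ⟨rfl, rfl⟩ | ⟨rfl, rfl⟩)
    · omega
    · have ha : a ≤ 2 := by nlinarith
      have hb : b ≤ 2 := by nlinarith
      apply hE
      unfold Exc
      interval_cases a <;> interval_cases b <;> omega
    · have ha : a ≤ 2 := by nlinarith
      have hb : b ≤ 2 := by nlinarith
      apply hE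
      unfold Exc
      interval_cases a <;> interval_cases b <;> omega
    · have ha : a ≤ 2 := by nlinarith
      have hb : b ≤ 2 := by nlinarith
      apply hE
      unfold Exc
      interval_cases a <;> interval_cases b <;> omega
  rw [phi_of_not_exc hE, phi_of_not_exc hij]
  have e1 : 4 ^ (a ^ 2 + b ^ 2 + 1) ≤ 4 ^ (i ^ 2 + j ^ 2) :=
    Nat.pow_le_pow_right (by norm_num) hq
  have e2 : a ^ 2 + b ^ 2 + 1 ≤ 4 ^ (a ^ 2 + b ^ 2) :=
    Nat.lt_pow_self (by norm_num)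
  rw [pow_succ] at e1
  have e3 : a ≤ a ^ 2 := Nat.le_self_pow (by norm_num) a
  have e4 : b ≤ b ^ 2 := Nat.le_self_pow (by norm_num) b
  omega

theorem phi_exc_mid {i j i' j' a b : ℕ} (h1 : i + i' = 2 * a) (h2 : j + j' = 2 * b)
    (hne : ¬ (i = i' ∧ j = j')) (hE : Exc a b) :
    2 * phi a b + (2 * a + 2 * b + 4) ≤ phi i j + phi i' j' := by
  have hi : i' = 2 * a - i := by omega
  have hj : j' = 2 * b - j := by omega
  subst hi hj
  rcases hE with ⟨rfl, rfl⟩ | ⟨rfl, rfl⟩ | ⟨rfl, rfl⟩ | ⟨rfl, rfl⟩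
  · omega
  · have hi : i ≤ 4 := by omega
    have hj : j ≤ 2 := by omega
    interval_cases i <;> interval_cases j <;> simp_all [phi]
  · have hi : i ≤ 2 := by omega
    have hj : j ≤ 4 := by omega
    interval_cases i <;> interval_cases j <;> simp_all [phi]
  · have hi : i ≤ 2 := by omega
    have hj : j ≤ 2 := by omega
    interval_cases i <;> interval_cases j <;> simp_all [phi]

theorem phi_convex {i j i' j' a b : ℕ} (h1 : i + i' = 2 * a) (h2 : j + j' = 2 * b)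
    (hne : ¬ (i = i' ∧ j = j')) :
    2 * phi a b + (2 * a + 2 * b + 4) ≤ phi i j + phi i' j' := by
  by_cases hE : Exc a b
  · exact phi_exc_mid h1 h2 hne hE
  · rcases lt_or_ge (a ^ 2 + b ^ 2) (i ^ 2 + j ^ 2) with hq | hq
    · have := phi_key h1 h2 hE hq
      omega
    · rcases lt_or_ge (a ^ 2 + b ^ 2) (i' ^ 2 + j' ^ 2) with hq' | hq'
      · have := phi_key (by omega : i' + i = 2 * a) (by omega : j' + j = 2 * b) hE hq'
        omega
      · exfalso
        apply hne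
        have z1 : (i : ℤ) + i' = 2 * a := by exact_mod_cast h1
        have z2 : (j : ℤ) + j' = 2 * b := by exact_mod_cast h2
        have z3 : (i : ℤ) ^ 2 + j ^ 2 ≤ a ^ 2 + b ^ 2 := by exact_mod_cast hq
        have z4 : (i' : ℤ) ^ 2 + j' ^ 2 ≤ a ^ 2 + b ^ 2 := by exact_mod_cast hq'
        have z5 : ((i : ℤ) - i') ^ 2 + ((j : ℤ) - j') ^ 2 ≤ 0 := by
          have : (2 * a : ℤ) ^ 2 = ((i : ℤ) + i') ^ 2 := by rw [z1]
          have : (2 * b : ℤ) ^ 2 = ((j : ℤ) + j') ^ 2 := by rw [z2]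
          nlinarith
        have z6 : (i : ℤ) - i' = 0 := by
          have := sq_nonneg ((i : ℤ) - i')
          have := sq_nonneg ((j : ℤ) - j')
          exact pow_eq_zero_iff (two_ne_zero) |>.1 (by linarith)
        have z7 : (j : ℤ) - j' = 0 := by
          have := sq_nonneg ((i : ℤ) - i')
          have := sq_nonneg ((j : ℤ) - j')
          exact pow_eq_zero_iff (two_ne_zero) |>.1 (by linarith)
        constructor <;> omega

/-- A quadratic form with small off-diagonal entries is nonnegative. -/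
theorem quad_nonneg {ι : Type*} (s : Finset ι) (c w mu : ι → ℝ) (K : ι → ι → ℝ)
    (hdiag : ∀ a ∈ s, K a a = mu a ^ 2)
    (hoff : ∀ a ∈ s, ∀ b ∈ s, a ≠ b → |K a b| ≤ (w a * mu a) * (w b * mu b))
    (hw : ∑ a ∈ s, w a ^ 2 ≤ 1) :
    0 ≤ ∑ a ∈ s, ∑ b ∈ s, c a * c b * K a b := by
  classical
  have key : ∀ a ∈ s, ∀ b ∈ s, (if a = b then (|c a| * mu a) ^ 2 else 0) -
      (w a * (|c a| * mu a)) * (w b * (|c b| * mu b)) ≤ c a * c b * K a b := by
    intro a ha b hb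
    by_cases hab : a = b
    · subst hab
      rw [if_pos rfl, hdiag a ha]
      have h1 : (|c a| * mu a) ^ 2 = c a * c a * mu a ^ 2 := by
        rw [mul_pow, sq_abs]; ring
      rw [h1]
      nlinarith [mul_self_nonneg (w a * (|c a| * mu a))]
    · rw [if_neg hab]
      have h1 := hoff a ha b hb hab
      have h2 : |c a * c b * K a b| ≤ |c a| * |c b| * ((w a * mu a) * (w b * mu b)) := by
        rw [abs_mul, abs_mul]
        exact mul_le_mul_of_nonneg_left h1 (by positivity)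
      have h3 := neg_abs_le (c a * c b * K a b)
      calc 0 - (w a * (|c a| * mu a)) * (w b * (|c b| * mu b))
          = - (|c a| * |c b| * ((w a * mu a) * (w b * mu b))) := by ring
        _ ≤ - |c a * c b * K a b| := neg_le_neg h2
        _ ≤ _ := h3
  have h1 : ∑ a ∈ s, ∑ b ∈ s, ((if a = b then (|c a| * mu a) ^ 2 else 0) -
      (w a * (|c a| * mu a)) * (w b * (|c b| * mu b))) ≤
      ∑ a ∈ s, ∑ b ∈ s, c a * c b * K a b :=
    Finset.sum_le_sum fun a ha => Finset.sum_le_sum fun b hb => key a ha b hb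
  refine le_trans ?_ h1
  have h2 : ∑ a ∈ s, ∑ b ∈ s, ((if a = b then (|c a| * mu a) ^ 2 else 0) -
      (w a * (|c a| * mu a)) * (w b * (|c b| * mu b))) =
      ∑ a ∈ s, (|c a| * mu a) ^ 2 - (∑ a ∈ s, w a * (|c a| * mu a)) ^ 2 := by
    rw [sq (∑ a ∈ s, w a * (|c a| * mu a)), Finset.sum_mul_sum, ← Finset.sum_sub_distrib]
    refine Finset.sum_congr rfl fun a ha => ?_
    rw [Finset.sum_sub_distrib, Finset.sum_ite_eq, if_pos ha]
  rw [h2, sub_nonneg]
  calc (∑ a ∈ s, w a * (|c a| * mu a)) ^ 2 ≤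
      (∑ a ∈ s, w a ^ 2) * ∑ a ∈ s, (|c a| * mu a) ^ 2 := Finset.sum_mul_sq_le_sq_mul_sq _ _ _
    _ ≤ 1 * ∑ a ∈ s, (|c a| * mu a) ^ 2 :=
        mul_le_mul_of_nonneg_right hw (Finset.sum_nonneg fun a _ => sq_nonneg _)
    _ = _ := one_mul _

/-- the weights -/
noncomputable def wt (m : Fin 2 →₀ ℕ) : ℝ := (1 / 2) ^ (m 0 + 1) * (1 / 2) ^ (m 1 + 1)

theorem sum_geom_le (A : Finset ℕ) : ∑ i ∈ A, ((1 / 4 : ℝ)) ^ (i + 1) ≤ 1 := by
  have h1 : Summable fun i : ℕ => ((1 / 4 : ℝ)) ^ (i + 1) :=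
    (summable_geometric_of_lt_one (by norm_num) (by norm_num)).comp_injective
      (add_left_injective 1)
  have h2 := h1.sum_le_tsum A fun i _ => by positivity
  refine h2.trans ?_
  have h3 : ∑' i : ℕ, ((1 / 4 : ℝ)) ^ (i + 1) = 1 / 3 := by
    simp_rw [pow_succ]
    rw [tsum_mul_right, tsum_geometric_of_lt_one (by norm_num) (by norm_num)]
    norm_num
  rw [h3]
  norm_num

theorem sum_wt_le (s : Finset (Fin 2 →₀ ℕ)) : ∑ m ∈ s, wt m ^ 2 ≤ 1 := by
  classical
  let e : (Fin 2 →₀ ℕ) → ℕ × ℕ := fun m => (m 0, m 1)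
  have he : Function.Injective e := by
    intro m m' h
    have h0 : m 0 = m' 0 := congrArg Prod.fst h
    have h1 : m 1 = m' 1 := congrArg Prod.snd h
    ext i
    fin_cases i
    · exact h0
    · exact h1
  have h1 : ∑ m ∈ s, wt m ^ 2 = ∑ p ∈ s.image e,
      ((1 / 4 : ℝ)) ^ (p.1 + 1) * ((1 / 4 : ℝ)) ^ (p.2 + 1) := by
    rw [Finset.sum_image fun m _ m' _ h => he h]
    refine Finset.sum_congr rfl fun m _ => ?_
    unfold wt
    rw [mul_pow, ← pow_mul, ← pow_mul, mul_comm (m 0 + 1), mul_comm (m 1 + 1), pow_mul, pow_mul]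
    norm_num [e]
  rw [h1]
  calc _ ≤ ∑ p ∈ ((s.image e).image Prod.fst) ×ˢ ((s.image e).image Prod.snd),
        ((1 / 4 : ℝ)) ^ (p.1 + 1) * ((1 / 4 : ℝ)) ^ (p.2 + 1) :=
        Finset.sum_le_sum_of_subset_of_nonneg Finset.subset_product fun p _ _ => by positivity
    _ = (∑ i ∈ (s.image e).image Prod.fst, ((1 / 4 : ℝ)) ^ (i + 1)) *
        ∑ j ∈ (s.image e).image Prod.snd, ((1 / 4 : ℝ)) ^ (j + 1) := by
        rw [Finset.sum_product, Finset.sum_mul_sum]
    _ ≤ 1 * 1 := mul_le_mul (sum_geom_le _) (sum_geom_le _)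
        (Finset.sum_nonneg fun _ _ => by positivity) zero_le_one
    _ = 1 := one_mul 1

/-- the values on monomials -/
noncomputable def lam (m : Fin 2 →₀ ℕ) : ℝ :=
  if m 0 % 2 = 0 ∧ m 1 % 2 = 0 then 4 ^ phi (m 0 / 2) (m 1 / 2) else 0

/-- the functional -/
noncomputable def Lam : MvPolynomial (Fin 2) ℝ →ₗ[ℝ] ℝ :=
  (basisMonomials (Fin 2) ℝ).constr ℝ lam

theorem Lam_monomial (m : Fin 2 →₀ ℕ) (c : ℝ) : Lam (monomial m c) = c * lam m := by
  have h1 : (monomial m c : MvPolynomial (Fin 2) ℝ) = c • basisMonomials (Fin 2) ℝ m := by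
    rw [coe_basisMonomials, smul_monomial, smul_eq_mul, mul_one]
  rw [h1, map_smul, Lam, Module.Basis.constr_basis, smul_eq_mul]

theorem Lam_mul_self (h : MvPolynomial (Fin 2) ℝ) : 0 ≤ Lam (h * h) := by
  have h1 : Lam (h * h) = ∑ a ∈ h.support, ∑ b ∈ h.support,
      coeff a h * coeff b h * lam (a + b) := by
    conv_lhs => rw [h.as_sum]
    rw [Finset.sum_mul_sum, map_sum]
    refine Finset.sum_congr rfl fun a _ => ?_
    rw [map_sum]
    refine Finset.sum_congr rfl fun b _ => ?_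
    rw [monomial_mul, Lam_monomial]
  rw [h1]
  refine quad_nonneg h.support (fun a => coeff a h) wt (fun m => 2 ^ phi (m 0) (m 1))
    (fun a b => lam (a + b)) ?_ ?_ (sum_wt_le _)
  · intro a _
    show lam (a + a) = _
    unfold lam
    rw [if_pos]
    · have e0 : (a + a) 0 / 2 = a 0 := by rw [Finsupp.add_apply]; omega
      have e1 : (a + a) 1 / 2 = a 1 := by rw [Finsupp.add_apply]; omega
      rw [e0, e1, ← pow_mul, mul_comm, pow_mul]
      norm_num
    · rw [Finsupp.add_apply, Finsupp.add_apply]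
      omega
  · intro a _ b _ hab
    show |lam (a + b)| ≤ _
    unfold lam
    split_ifs with h2
    · rw [Finsupp.add_apply, Finsupp.add_apply] at h2
      obtain ⟨u, hu⟩ : ∃ u, a 0 + b 0 = 2 * u := ⟨(a 0 + b 0) / 2, by omega⟩
      obtain ⟨v, hv⟩ : ∃ v, a 1 + b 1 = 2 * v := ⟨(a 1 + b 1) / 2, by omega⟩
      have hne : ¬ (a 0 = b 0 ∧ a 1 = b 1) := by
        rintro ⟨g0, g1⟩
        apply hab
        ext i
        fin_cases i
        · exact g0
        · exact g1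
      have h3 := phi_convex hu hv hne
      have e0 : (a + b) 0 / 2 = u := by rw [Finsupp.add_apply]; omega
      have e1 : (a + b) 1 / 2 = v := by rw [Finsupp.add_apply]; omega
      rw [e0, e1, abs_of_nonneg (by positivity)]
      unfold wt
      have h4 : (4 : ℝ) ^ phi u v * 2 ^ (2 * u + 2 * v + 4) ≤
          2 ^ phi (a 0) (a 1) * 2 ^ phi (b 0) (b 1) := by
        rw [show (4 : ℝ) = 2 ^ 2 by norm_num, ← pow_mul, ← pow_add, ← pow_add]
        exact pow_le_pow_right₀ (by norm_num) h3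
      have h5 : ((1 / 2 : ℝ)) ^ (2 * u + 2 * v + 4) * 2 ^ (2 * u + 2 * v + 4) = 1 := by
        rw [← mul_pow]; norm_num
      have h6 : (1 / 2 : ℝ) ^ (a 0 + 1) * (1 / 2) ^ (a 1 + 1) * 2 ^ phi (a 0) (a 1) *
          ((1 / 2) ^ (b 0 + 1) * (1 / 2) ^ (b 1 + 1) * 2 ^ phi (b 0) (b 1)) =
          (1 / 2) ^ (2 * u + 2 * v + 4) * (2 ^ phi (a 0) (a 1) * 2 ^ phi (b 0) (b 1)) := by
        rw [show 2 * u + 2 * v + 4 = (a 0 + 1) + (a 1 + 1) + (b 0 + 1) + (b 1 + 1) by omega]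
        rw [pow_add, pow_add, pow_add]
        ring
      rw [h6]
      calc (4 : ℝ) ^ phi u v = (1 / 2) ^ (2 * u + 2 * v + 4) *
            (4 ^ phi u v * 2 ^ (2 * u + 2 * v + 4)) := by linear_combination -(4 : ℝ) ^ phi u v * h5
        _ ≤ _ := mul_le_mul_of_nonneg_left h4 (by positivity)
    · rw [abs_zero]
      unfold wt
      positivity

theorem Lam_isSumSq {p : MvPolynomial (Fin 2) ℝ} (hp : IsSumSq p) : 0 ≤ Lam p := by
  induction hp with
  | zero => rw [map_zero]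
  | sq_add a _ ih => rw [map_add]; exact add_nonneg (Lam_mul_self a) ih

end Pool.Agent.U739.Mp2f
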