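import Mathlib
import Pool.Agent.U739.Mp2f.Fun

/-!
# Leading coefficients and the limit argument
-/

set_option autoImplicit false

open Polynomial Filter Topology

namespace Pool.Agent.U739.Mp2f

section Top

variable {R : Type*} [CommRing R]

/-- `F` has degree at most `n` and its coefficient at `n` is `c` -/
def Top (F : Polynomial R) (n : ℕ) (c : R) : Prop := F.natDegree ≤ n ∧ F.coeff n = c

theorem Top.mul {F G : Polynomial R} {n m : ℕ} {c d : R} (hF : Top F n c) (hG : Top G m d) :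
    Top (F * G) (n + m) (c * d) := by
  refine ⟨(natDegree_mul_le).trans (add_le_add hF.1 hG.1), ?_⟩
  rw [coeff_mul_add_eq_of_natDegree_le hF.1 hG.1, hF.2, hG.2]

theorem Top.pow {F : Polynomial R} {n : ℕ} {c : R} (hF : Top F n c) (k : ℕ) :
    Top (F ^ k) (k * n) (c ^ k) := by
  refine ⟨natDegree_pow_le_of_le k hF.1, ?_⟩
  rw [mul_comm k n, mul_comm n k, coeff_pow_of_natDegree_le hF.1, hF.2]

theorem Top.add {F G : Polynomial R} {n : ℕ} {c d : R} (hF : Top F n c) (hG : Top G n d) :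
    Top (F + G) n (c + d) := by
  refine ⟨natDegree_add_le_of_degree_le hF.1 hG.1, ?_⟩
  rw [coeff_add, hF.2, hG.2]

theorem Top.sub {F G : Polynomial R} {n : ℕ} {c d : R} (hF : Top F n c) (hG : Top G n d) :
    Top (F - G) n (c - d) := by
  refine ⟨(natDegree_sub_le_of_le hF.1 hG.1).trans (max_self n).le, ?_⟩
  rw [coeff_sub, hF.2, hG.2]

theorem top_C (c : R) : Top (C c) 0 c := ⟨by simp, by simp⟩

theorem top_X_pow (n : ℕ) : Top (X ^ n : Polynomial R) n 1 :=
  ⟨natDegree_X_pow_le n, by simp⟩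

theorem top_zero (n : ℕ) : Top (0 : Polynomial R) n 0 := ⟨by simp, by simp⟩

theorem Top.lift {F : Polynomial R} {n m : ℕ} {c : R} (hF : Top F n c) (h : n < m) :
    Top F m 0 :=
  ⟨hF.1.trans h.le, coeff_eq_zero_of_natDegree_lt (hF.1.trans_lt h)⟩

theorem top_X_add_C (x : R) : Top (X + C x) 1 1 :=
  ⟨(natDegree_add_le_of_degree_le natDegree_X_le (by simp)), by simp [coeff_X]⟩

theorem Top.congr {F : Polynomial R} {n m : ℕ} {c d : R} (hF : Top F n c) (h : n = m)
    (h' : c = d) : Top F m d := by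
  subst h h'; exact hF

end Top

theorem limit_nonneg {R : Type*} [CommRing R] [Algebra ℝ R] (L : R →ₗ[ℝ] ℝ)
    {F : Polynomial R} {n : ℕ} {c : R} (hF : Top F n c)
    (h : ∀ T : ℕ, 1 ≤ T → 0 ≤ L (F.eval (T : R))) : 0 ≤ L c := by
  have e1 : ∀ T : ℕ, L (F.eval (T : R)) =
      ∑ i ∈ Finset.range (n + 1), (T : ℝ) ^ i * L (F.coeff i) := by
    intro T
    rw [eval_eq_sum_range' (Nat.lt_succ_of_le hF.1), map_sum]
    refine Finset.sum_congr rfl fun i _ => ?_
    have : F.coeff i * (T : R) ^ i = ((T : ℝ) ^ i) • F.coeff i := by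
      rw [Algebra.smul_def, map_pow, map_natCast, mul_comm]
    rw [this, map_smul, smul_eq_mul]
  have e2 : Tendsto (fun T : ℕ => ∑ i ∈ Finset.range (n + 1),
      ((T : ℝ) ^ i / (T : ℝ) ^ n) * L (F.coeff i)) atTop
      (𝓝 (∑ i ∈ Finset.range (n + 1), (if i = n then (1 : ℝ) else 0) * L (F.coeff i))) := by
    refine tendsto_finsetSum _ fun i hi => ?_
    refine Tendsto.mul_const _ ?_
    by_cases hin : i = n
    · subst hin
      rw [if_pos rfl]
      refine tendsto_const_nhds.congr' ?_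
      filter_upwards [eventually_ge_atTop 1] with T hT
      have : (0 : ℝ) < (T : ℝ) ^ i := by positivity
      rw [div_self this.ne']
    · rw [if_neg hin]
      rw [Finset.mem_range] at hi
      exact (tendsto_pow_div_pow_atTop_zero (by omega)).comp tendsto_natCast_atTop_atTop
  have e3 : ∑ i ∈ Finset.range (n + 1), (if i = n then (1 : ℝ) else 0) * L (F.coeff i) = L c := by
    rw [Finset.sum_eq_single n]
    · rw [if_pos rfl, one_mul, hF.2]
    · intro i _ hi
      rw [if_neg hi, zero_mul]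
    · intro hn
      exact absurd (Finset.mem_range.2 (Nat.lt_succ_self n)) hn
  rw [e3] at e2
  refine ge_of_tendsto e2 ?_
  filter_upwards [eventually_ge_atTop 1] with T hT
  have h1 := h T hT
  rw [e1] at h1
  have h2 : ∑ i ∈ Finset.range (n + 1), ((T : ℝ) ^ i / (T : ℝ) ^ n) * L (F.coeff i) =
      (∑ i ∈ Finset.range (n + 1), (T : ℝ) ^ i * L (F.coeff i)) / (T : ℝ) ^ n := by
    rw [Finset.sum_div]
    exact Finset.sum_congr rfl fun i _ => by ring
  rw [h2]
  positivity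

theorem isSumSq_map {A B : Type*} [CommRing A] [CommRing B] (f : A →+* B) {a : A}
    (h : IsSumSq a) : IsSumSq (f a) := by
  induction h with
  | zero => rw [map_zero]; exact IsSumSq.zero
  | sq_add x _ ih => rw [map_add, map_mul]; exact IsSumSq.sq_add _ ih

/-- the power sums of the configuration: `T` copies of `T + x₁`, `-T`, `2(T + x₂)`, `-2T` each
and `T⁴` copies of `1` and `-1` each -/
noncomputable def P {R : Type*} [CommRing R] (x₁ x₂ : R) (j : ℕ) : Polynomial R :=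
  X * ((X + C x₁) ^ j + (-X) ^ j + (C 2 * (X + C x₂)) ^ j + (-(C 2 * X)) ^ j) +
    X ^ 4 * (1 + (-1) ^ j)

section P

variable {R : Type*} [CommRing R] (x₁ x₂ : R)

theorem top_P2 : Top (P x₁ x₂ 2) 4 2 := by
  have h1 : P x₁ x₂ 2 = X ^ 4 * C 2 + (X ^ 3 * C 10 + (X ^ 2 * C (2 * x₁ + 8 * x₂) +
      X ^ 1 * C (x₁ ^ 2 + 4 * x₂ ^ 2))) := by
    unfold P
    simp only [map_add, map_mul, map_pow, map_ofNat]
    ring
  rw [h1]
  refine (((top_X_pow 4).mul (top_C 2)).add ((((top_X_pow 3).mul (top_C _)).lift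
    (by norm_num)).add ((((top_X_pow 2).mul (top_C _)).lift (by norm_num)).add
    (((top_X_pow 1).mul (top_C _)).lift (by norm_num))))).congr rfl (by ring)

theorem top_P3 : Top (P x₁ x₂ 3) 3 (3 * x₁ + 24 * x₂) := by
  have h1 : P x₁ x₂ 3 = X ^ 3 * C (3 * x₁ + 24 * x₂) + (X ^ 2 * C (3 * x₁ ^ 2 + 24 * x₂ ^ 2) +
      X ^ 1 * C (x₁ ^ 3 + 8 * x₂ ^ 3)) := by
    unfold P
    simp only [map_add, map_mul, map_pow, map_ofNat]
    ring
  rw [h1]
  refine (((top_X_pow 3).mul (top_C _)).add ((((top_X_pow 2).mul (top_C _)).lift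
    (by norm_num)).add (((top_X_pow 1).mul (top_C _)).lift (by norm_num)))).congr rfl (by ring)

theorem top_P5 : Top (P x₁ x₂ 5) 5 (5 * x₁ + 160 * x₂) := by
  have h1 : P x₁ x₂ 5 = X ^ 5 * C (5 * x₁ + 160 * x₂) + (X ^ 4 * C (10 * x₁ ^ 2 + 320 * x₂ ^ 2) +
      (X ^ 3 * C (10 * x₁ ^ 3 + 320 * x₂ ^ 3) + (X ^ 2 * C (5 * x₁ ^ 4 + 160 * x₂ ^ 4) +
      X ^ 1 * C (x₁ ^ 5 + 32 * x₂ ^ 5)))) := by
    unfold P
    simp only [map_add, map_mul, map_pow, map_ofNat]
    ring
  rw [h1]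
  refine (((top_X_pow 5).mul (top_C _)).add ((((top_X_pow 4).mul (top_C _)).lift
    (by norm_num)).add ((((top_X_pow 3).mul (top_C _)).lift (by norm_num)).add
    ((((top_X_pow 2).mul (top_C _)).lift
    (by norm_num)).add (((top_X_pow 1).mul (top_C _)).lift (by norm_num)))))).congr rfl (by ring)

theorem top_P_even {j : ℕ} (hj : Even j) (h4 : 4 ≤ j) :
    Top (P x₁ x₂ j) (j + 1) (2 + 2 * 2 ^ j) := by
  have h1 : P x₁ x₂ j = X ^ 1 * ((X + C x₁) ^ j + X ^ j + C 2 ^ j * (X + C x₂) ^ j +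
      C 2 ^ j * X ^ j) + X ^ 4 * C 2 := by
    unfold P
    rw [hj.neg_pow, hj.neg_pow, hj.neg_pow, mul_pow, mul_pow, one_pow, pow_one]
    have : (C 2 : Polynomial R) = 1 + 1 := by simp only [map_ofNat]; norm_num
    rw [this]
  rw [h1]
  have t1 : Top ((X + C x₁) ^ j) (j * 1) (1 ^ j) := (top_X_add_C x₁).pow j
  have t2 : Top ((X + C x₂) ^ j) (j * 1) (1 ^ j) := (top_X_add_C x₂).pow j
  have t3 : Top ((C 2 : Polynomial R) ^ j) (j * 0) (2 ^ j) := (top_C 2).pow j
  have t4 := (t3.mul t2).congr (show j * 0 + j * 1 = j by ring) (show _ = (2 : R) ^ j by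
    rw [one_pow, mul_one])
  have t5 := (t3.mul (top_X_pow (R := R) j)).congr (show j * 0 + j = j by ring)
    (show _ = (2 : R) ^ j by rw [mul_one])
  have t6 := t1.congr (show j * 1 = j by ring) (show _ = (1 : R) by rw [one_pow])
  have t7 := (top_X_pow (R := R) 1).mul (((t6.add (top_X_pow j)).add t4).add t5)
  have t8 : Top ((X : Polynomial R) ^ 4 * C 2) (1 + j) 0 :=
    ((top_X_pow 4).mul (top_C _)).lift (by omega)
  exact (t7.add t8).congr (by ring) (by ring)

end P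

/-- the index set of the configuration -/
abbrev Idx (T : ℕ) : Type := (Fin 4 × Fin T) ⊕ (Fin 2 × Fin (T ^ 4))

/-- the configuration -/
def conf {R : Type*} [CommRing R] (x₁ x₂ : R) (T : ℕ) : Idx T → R
  | Sum.inl (0, _) => T + x₁
  | Sum.inl (1, _) => -T
  | Sum.inl (2, _) => 2 * (T + x₂)
  | Sum.inl (3, _) => -(2 * T)
  | Sum.inr (0, _) => 1
  | Sum.inr (1, _) => -1

theorem sum_conf {R : Type*} [CommRing R] (x₁ x₂ : R) (T j : ℕ) :
    ∑ a, conf x₁ x₂ T a ^ j = (P x₁ x₂ j).eval (T : R) := by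
  rw [Fintype.sum_sum_type, Fintype.sum_prod_type, Fintype.sum_prod_type, Fin.sum_univ_four,
    Fin.sum_univ_two]
  simp only [conf, Finset.sum_const, Finset.card_univ, Fintype.card_fin, P, eval_add, eval_mul,
    eval_X, eval_pow, eval_neg, eval_C, eval_one, nsmul_eq_mul]
  push_cast
  ring

theorem exists_hom {R : Type*} [CommRing R] [Algebra ℝ R] {ι : Type*} [Fintype ι] (y : ι → R)
    {n : ℕ} (hn : Fintype.card ι ≤ n) : ∃ θ : MvPolynomial (Fin n) ℝ →ₐ[ℝ] R,
      ∀ k, 1 ≤ k → θ (∑ i, MvPolynomial.X i ^ k) = ∑ a, y a ^ k := by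
  obtain ⟨e⟩ : Nonempty (ι ↪ Fin n) := Function.Embedding.nonempty_of_card_le (by simpa using hn)
  refine ⟨MvPolynomial.aeval (Function.extend e y 0), fun k hk => ?_⟩
  rw [map_sum]
  simp only [map_pow, MvPolynomial.aeval_X]
  symm
  refine Fintype.sum_of_injective e e.injective _ _ (fun i hi => ?_) (fun a => ?_)
  · rw [Function.extend_apply' _ _ _ (by simpa using hi), Pi.zero_apply, zero_pow (by omega)]
  · rw [e.injective.extend_apply]

end Pool.Agent.U739.Mp2f
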